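import Mathlib
import Pool.Agent.Helper278.DefsG

/-!
# Continuous logic for tracial von Neumann algebras: definitions

Terms, formulas, elementary embeddings, indiscernible sequences, dividing and simplicity, in the
language of tracial von Neumann algebras. `Elt N`, `norm2`, `IsFaithfulTrace`, `IsNormalPositive`,
`HasTrivialCenter` and `IsIIOneFactor` are in `Pool/Agent/Helper278/Defs.lean` and
`Pool/Agent/Helper278/DefsG.lean`.
-/

set_option autoImplicit false

open scoped InnerProductSpace

namespace Pool.Agent.H690R2.NS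

open Pool.Agent.Helper278

/-- A tracial von Neumann algebra: a von Neumann algebra `N` on a complex Hilbert space `H` with a
faithful normal tracial state `τ`. -/
structure TVNA where
  /-- the Hilbert space -/
  H : Type
  [i1 : NormedAddCommGroup H]
  [i2 : InnerProductSpace ℂ H]
  [i3 : CompleteSpace H]
  /-- the von Neumann algebra -/
  N : VonNeumannAlgebra H
  /-- the trace -/
  τ : Elt N → ℂ
  trace : IsFaithfulTrace τ
  normal : IsNormalPositive N τ

attribute [instance] TVNA.i1 TVNA.i2 TVNA.i3

/-- The elements of a tracial von Neumann algebra. -/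
abbrev TVNA.A (M : TVNA) : Type := Elt M.N

/-- The sort `D_r`: the closed ball of radius `r` of the operator norm. -/
def TVNA.ball (M : TVNA) (r : ℕ+) : Set M.A := {x | ‖(x : M.H →L[ℂ] M.H)‖ ≤ (r : ℕ)}

/-- Terms of the language: built from variables in `V` with `0`, `1`, `+`, the product, the adjoint
and the scalar multiplications by the complex numbers `a + b i` with rational `a`, `b`. -/
inductive Tm (V : Type) : Type
  | var (v : V) : Tm V
  | zero : Tm V
  | one : Tm V
  | add (s t : Tm V) : Tm V
  | mul (s t : Tm V) : Tm V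
  | smul (a b : ℚ) (t : Tm V) : Tm V
  | adj (t : Tm V) : Tm V

/-- Formulas of continuous logic, with free variables in `V` and `n` variables that are to be bound
by quantifiers: the atomic formulas are `Re τ(t)`, `Im τ(t)` and `‖s - t‖₂` for terms `s`, `t`; the
connectives are all continuous functions `ℝ^k → ℝ`; the quantifiers are the supremum and the
infimum over the sort `D_r`, with `r ≥ 1` an integer. -/
inductive Fml (V : Type) : ℕ → Type
  | re {n : ℕ} (t : Tm (V ⊕ Fin n)) : Fml V n
  | im {n : ℕ} (t : Tm (V ⊕ Fin n)) : Fml V n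
  | dist {n : ℕ} (s t : Tm (V ⊕ Fin n)) : Fml V n
  | conn {n : ℕ} (k : ℕ) (u : (Fin k → ℝ) → ℝ) (hu : Continuous u) (φ : Fin k → Fml V n) : Fml V n
  | sup {n : ℕ} (r : ℕ+) (φ : Fml V (n + 1)) : Fml V n
  | inf {n : ℕ} (r : ℕ+) (φ : Fml V (n + 1)) : Fml V n

section val

variable {V A : Type} [Ring A] [StarRing A] [Algebra ℂ A]

/-- The value of a term in a complex star algebra `A`, for the assignment `x` of elements to the
variables. -/
noncomputable def Tm.val (x : V → A) : Tm V → A
  | .var v => x v
  | .zero => 0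
  | .one => 1
  | .add s t => s.val x + t.val x
  | .mul s t => s.val x * t.val x
  | .smul a b t => ((a : ℂ) + (b : ℂ) * Complex.I) • t.val x
  | .adj t => star (t.val x)

/-- The value of a formula in a complex star algebra `A` with the trace `τ` and the sorts `D_r`, for
the assignment `a` to the free variables and the assignment `x` to the other variables. -/
noncomputable def Fml.val (τ : A → ℂ) (D : ℕ+ → Set A) (a : V → A) :
    {n : ℕ} → Fml V n → (Fin n → A) → ℝ
  | _, .re t, x => (τ (t.val (Sum.elim a x))).re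
  | _, .im t, x => (τ (t.val (Sum.elim a x))).im
  | _, .dist s t, x => norm2 τ (s.val (Sum.elim a x) - t.val (Sum.elim a x))
  | _, .conn _ u _ φ, x => u fun i => (φ i).val τ D a x
  | _, .sup r φ, x => ⨆ y : D r, φ.val τ D a (Fin.snoc x (y : A))
  | _, .inf r φ, x => ⨅ y : D r, φ.val τ D a (Fin.snoc x (y : A))

/-- The subset `S` of `A` is separable in the metric given by the 2-norm of `τ`. -/
def IsSep (τ : A → ℂ) (S : Set A) : Prop :=
  ∃ D ⊆ S, D.Countable ∧ ∀ x ∈ S, ∀ ε : ℝ, 0 < ε → ∃ y ∈ D, norm2 τ (x - y) < ε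

end val

/-- The value in `M` of a formula all of whose variables are in `V`. -/
noncomputable def TVNA.eval {V : Type} (M : TVNA) (φ : Fml V 0) (a : V → M.A) : ℝ :=
  φ.val M.τ M.ball a Fin.elim0

/-- The complete continuous theory `Th(M)`: the sentences with value `0` in `M`. -/
def TVNA.theory (M : TVNA) : Set (Fml Empty 0) := {φ | M.eval φ Empty.elim = 0}

/-- `f` is an elementary embedding of `M` into `N`. -/
def IsElem {M N : TVNA} (f : M.A → N.A) : Prop :=
  ∀ (V : Type) (φ : Fml V 0) (a : V → M.A), N.eval φ (f ∘ a) = M.eval φ a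

/-- Let `p = p(y, x)` be a set of formulas in the variables `y = (y_i)_{i ∈ I}` and
`x = (x_1, …, x_k)`, with `x_j` of sort `D_{r_j}`. The tuple `c` of elements of `M` realizes
`p(b, x)`, the set of the conditions `φ(b, x) = 0` for `φ ∈ p`. -/
def Realizes {I : Type} {k : ℕ} (M : TVNA) (p : Set (Fml (I ⊕ Fin k) 0)) (r : Fin k → ℕ+)
    (b : I → M.A) (c : Fin k → M.A) : Prop :=
  (∀ j, c j ∈ M.ball (r j)) ∧ ∀ φ ∈ p, M.eval φ (Sum.elim b c) = 0

/-- The sequence `b_0, b_1, …` of `I`-tuples in `M` is `A`-indiscernible. -/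
def Indiscernible {I : Type} (M : TVNA) (A : Set M.A) (b : ℕ → I → M.A) : Prop :=
  ∀ (n : ℕ) (φ : Fml (A ⊕ Fin n × I) 0) (s t : Fin n → ℕ), StrictMono s → StrictMono t →
    M.eval φ (Sum.elim (fun a : A => (a : M.A)) fun v => b (s v.1) v.2) =
      M.eval φ (Sum.elim (fun a : A => (a : M.A)) fun v => b (t v.1) v.2)

/-- `p(b, x)` divides over the subset `A` of `M`: in some elementary extension `N` of `M` there is
an `A`-indiscernible sequence `b_0, b_1, …` with `b_0 = b` such that the union of the `p(b_i, x)` is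
inconsistent, that is, not realized in any elementary extension of `N`. -/
def Divides {I : Type} {k : ℕ} (M : TVNA) (p : Set (Fml (I ⊕ Fin k) 0)) (r : Fin k → ℕ+)
    (b : I → M.A) (A : Set M.A) : Prop :=
  ∃ (N : TVNA) (f : M.A → N.A) (b' : ℕ → I → N.A), IsElem f ∧ b' 0 = f ∘ b ∧
    Indiscernible N (f '' A) b' ∧
      ∀ (P : TVNA) (g : N.A → P.A), IsElem g →
        ¬ ∃ c : Fin k → P.A, ∀ i, Realizes P p r (g ∘ b' i) c

/-- The complete type over the subset `B` of `M` of a tuple `c` in an elementary extension
`f : M → N`. -/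
def typeOver {M N : TVNA} (f : M.A → N.A) (B : Set M.A) {k : ℕ} (c : Fin k → N.A) :
    Set (Fml (B ⊕ Fin k) 0) :=
  {φ | N.eval φ (Sum.elim (fun b : B => f b) c) = 0}

/-- The complete theory `T` is simple: every complete type `p` over a subset `B` of a model `M` of
`T` (the type of a finite tuple in an elementary extension of `M`) does not divide over some
separable subset `A` of `B`. -/
def IsSimple (T : Set (Fml Empty 0)) : Prop :=
  ∀ M : TVNA, T ⊆ M.theory → ∀ (B : Set M.A) (N : TVNA) (f : M.A → N.A), IsElem f →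
    ∀ (k : ℕ) (r : Fin k → ℕ+) (c : Fin k → N.A), (∀ j, c j ∈ N.ball (r j)) →
      ∃ A ⊆ B, IsSep M.τ A ∧
        ¬ Divides M (typeOver f B c) r (fun b : B => (b : M.A)) A

end Pool.Agent.H690R2.NS
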