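import Mathlib
import Pool.Agent.H690R2.NS.Defs
import Pool.Agent.Helper278.Trace

/-!
# Basic facts on values of formulas
-/

set_option autoImplicit false

open scoped InnerProductSpace ComplexOrder

namespace Pool.Agent.H690R2.NS

open Pool.Agent.Helper278

/-- the bundled trace -/
noncomputable def TVNA.T (M : TVNA) : TracialState M.N := mkState M.N M.τ M.normal M.trace

theorem TVNA.T_apply (M : TVNA) (x : M.A) : M.T.τ x = M.τ x := rfl

theorem TVNA.norm_eq (M : TVNA) (x : M.A) : ‖(x : M.H →L[ℂ] M.H)‖ = ‖x‖ := rfl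

theorem TVNA.mem_ball (M : TVNA) (r : ℕ+) (x : M.A) : x ∈ M.ball r ↔ ‖x‖ ≤ (r : ℕ) := Iff.rfl

theorem TVNA.n2_le (M : TVNA) (x : M.A) : n2 M.T.τ x ≤ ‖x‖ := by
  have h1 := n2_mul_le M.T x 1
  have h2 : n2 M.T.τ (1 : M.A) = 1 := by
    unfold n2
    rw [star_one, one_mul, M.T.map_one, Complex.one_re, Real.sqrt_one]
  rwa [mul_one, h2, mul_one] at h1

theorem TVNA.tau_le (M : TVNA) (x : M.A) : ‖M.τ x‖ ≤ ‖x‖ := by
  have h := (trAlg M.T).cauchy 1 x
  have h2 : n2 M.T.τ (1 : M.A) = 1 := by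
    unfold n2
    rw [star_one, one_mul, M.T.map_one, Complex.one_re, Real.sqrt_one]
  rw [star_one, one_mul, h2, one_mul] at h
  exact h.trans (M.n2_le x)

theorem TVNA.norm2_eq (M : TVNA) (x : M.A) : norm2 M.τ x = n2 M.T.τ x := rfl

theorem TVNA.zero_mem (M : TVNA) (r : ℕ+) : (0 : M.A) ∈ M.ball r := by
  rw [M.mem_ball, norm_zero]
  exact Nat.cast_nonneg _

instance (M : TVNA) (r : ℕ+) : Nonempty (M.ball r) := ⟨⟨0, M.zero_mem r⟩⟩

/-- terms are bounded -/
theorem Tm.bdd {V : Type} (t : Tm V) (C : V → ℝ) : ∃ B : ℝ, ∀ (M : TVNA) (x : V → M.A),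
    (∀ v, ‖x v‖ ≤ C v) → ‖t.val x‖ ≤ B := by
  induction t with
  | var v => exact ⟨C v, fun M x h => h v⟩
  | zero => exact ⟨0, fun M x h => (norm_zero (E := M.A)).le⟩
  | one =>
    refine ⟨1, fun M x h => ?_⟩
    show ‖(1 : M.A)‖ ≤ 1
    exact ContinuousLinearMap.norm_id_le
  | add s t ihs iht =>
    obtain ⟨B, hB⟩ := ihs
    obtain ⟨D, hD⟩ := iht
    exact ⟨B + D, fun M x h => (norm_add_le _ _).trans (add_le_add (hB M x h) (hD M x h))⟩
  | mul s t ihs iht =>
    obtain ⟨B, hB⟩ := ihs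
    obtain ⟨D, hD⟩ := iht
    exact ⟨B * D, fun M x h => (norm_mul_le _ _).trans (mul_le_mul (hB M x h) (hD M x h)
      (norm_nonneg _) ((norm_nonneg _).trans (hB M x h)))⟩
  | smul a b t ih =>
    obtain ⟨B, hB⟩ := ih
    refine ⟨‖(a : ℂ) + (b : ℂ) * Complex.I‖ * B, fun M x h => ?_⟩
    show ‖((a : ℂ) + (b : ℂ) * Complex.I) • t.val x‖ ≤ _
    rw [norm_smul]
    exact mul_le_mul_of_nonneg_left (hB M x h) (norm_nonneg _)
  | adj t ih =>
    obtain ⟨B, hB⟩ := ih
    refine ⟨B, fun M x h => ?_⟩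
    show ‖((star (t.val x) : M.A) : M.H →L[ℂ] M.H)‖ ≤ B
    have : ((star (t.val x) : M.A) : M.H →L[ℂ] M.H) = star ((t.val x : M.A) : M.H →L[ℂ] M.H) :=
      rfl
    rw [this, norm_star]
    exact hB M x h

/-- formulas are bounded -/
theorem Fml.bdd {V : Type} {n : ℕ} (φ : Fml V n) (C : V → ℝ) : ∀ D : Fin n → ℝ, ∃ B : ℝ,
    ∀ (M : TVNA) (a : V → M.A) (x : Fin n → M.A), (∀ v, ‖a v‖ ≤ C v) → (∀ i, ‖x i‖ ≤ D i) →
      |φ.val M.τ M.ball a x| ≤ B := by
  induction φ with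
  | re t =>
    intro D
    obtain ⟨B, hB⟩ := t.bdd (Sum.elim C D)
    refine ⟨B, fun M a x ha hx => ?_⟩
    refine (Complex.abs_re_le_norm _).trans ((M.tau_le _).trans (hB M _ ?_))
    rintro (v | i)
    exacts [ha v, hx i]
  | im t =>
    intro D
    obtain ⟨B, hB⟩ := t.bdd (Sum.elim C D)
    refine ⟨B, fun M a x ha hx => ?_⟩
    refine (Complex.abs_im_le_norm _).trans ((M.tau_le _).trans (hB M _ ?_))
    rintro (v | i)
    exacts [ha v, hx i]
  | dist s t =>
    intro D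
    obtain ⟨B, hB⟩ := s.bdd (Sum.elim C D)
    obtain ⟨B', hB'⟩ := t.bdd (Sum.elim C D)
    refine ⟨B + B', fun M a x ha hx => ?_⟩
    have hb : ∀ v, ‖Sum.elim a x v‖ ≤ Sum.elim C D v := by
      rintro (v | i)
      exacts [ha v, hx i]
    show |norm2 M.τ (s.val (Sum.elim a x) - t.val (Sum.elim a x))| ≤ B + B'
    rw [M.norm2_eq, abs_of_nonneg (n2_nonneg _ _)]
    exact (M.n2_le _).trans ((norm_sub_le _ _).trans (add_le_add (hB M _ hb) (hB' M _ hb)))
  | conn k u hu φ ih =>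
    intro D
    choose B hB using fun i => ih i D
    have hc : IsCompact (Set.pi Set.univ fun i : Fin k => Set.Icc (-(B i)) (B i)) :=
      isCompact_univ_pi fun i => isCompact_Icc
    obtain ⟨R, hR⟩ := hc.exists_bound_of_continuousOn hu.continuousOn
    refine ⟨R, fun M a x ha hx => ?_⟩
    have := hR (fun i => (φ i).val M.τ M.ball a x) (fun i _ => abs_le.1 (hB i M a x ha hx))
    exact this
  | sup r φ ih =>
    intro D
    obtain ⟨B, hB⟩ := ih (Fin.snoc (α := fun _ => ℝ) D (r : ℕ))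
    refine ⟨B, fun M a x ha hx => ?_⟩
    have h1 : ∀ y : M.ball r, |φ.val M.τ M.ball a (Fin.snoc x (y : M.A))| ≤ B := by
      intro y
      refine hB M a _ ha fun i => ?_
      refine Fin.lastCases ?_ (fun i => ?_) i
      · rw [Fin.snoc_last, Fin.snoc_last]
        exact y.2
      · rw [Fin.snoc_castSucc, Fin.snoc_castSucc]
        exact hx i
    show |⨆ y : M.ball r, φ.val M.τ M.ball a (Fin.snoc x (y : M.A))| ≤ B
    have hbd : BddAbove (Set.range fun y : M.ball r => φ.val M.τ M.ball a (Fin.snoc x (y : M.A))) :=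
      ⟨B, by rintro _ ⟨y, rfl⟩; exact (abs_le.1 (h1 y)).2⟩
    rw [abs_le]
    constructor
    · exact (abs_le.1 (h1 ⟨0, M.zero_mem r⟩)).1.trans (le_ciSup hbd ⟨0, M.zero_mem r⟩)
    · exact ciSup_le fun y => (abs_le.1 (h1 y)).2
  | inf r φ ih =>
    intro D
    obtain ⟨B, hB⟩ := ih (Fin.snoc (α := fun _ => ℝ) D (r : ℕ))
    refine ⟨B, fun M a x ha hx => ?_⟩
    have h1 : ∀ y : M.ball r, |φ.val M.τ M.ball a (Fin.snoc x (y : M.A))| ≤ B := by
      intro y
      refine hB M a _ ha fun i => ?_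
      refine Fin.lastCases ?_ (fun i => ?_) i
      · rw [Fin.snoc_last, Fin.snoc_last]
        exact y.2
      · rw [Fin.snoc_castSucc, Fin.snoc_castSucc]
        exact hx i
    show |⨅ y : M.ball r, φ.val M.τ M.ball a (Fin.snoc x (y : M.A))| ≤ B
    have hbd : BddBelow (Set.range fun y : M.ball r => φ.val M.τ M.ball a (Fin.snoc x (y : M.A))) :=
      ⟨-B, by rintro _ ⟨y, rfl⟩; exact (abs_le.1 (h1 y)).1⟩
    rw [abs_le]
    constructor
    · exact le_ciInf fun y => (abs_le.1 (h1 y)).1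
    · exact (ciInf_le hbd ⟨0, M.zero_mem r⟩).trans (abs_le.1 (h1 ⟨0, M.zero_mem r⟩)).2

/-- a term depends on finitely many variables -/
theorem Tm.supp {V : Type} (t : Tm V) : ∃ S : Set V, S.Finite ∧ ∀ (M : TVNA) (x y : V → M.A),
    (∀ v ∈ S, x v = y v) → t.val x = t.val y := by
  induction t with
  | var v => exact ⟨{v}, Set.finite_singleton v, fun M x y h => h v rfl⟩
  | zero => exact ⟨∅, Set.finite_empty, fun M x y h => rfl⟩
  | one => exact ⟨∅, Set.finite_empty, fun M x y h => rfl⟩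
  | add s t ihs iht =>
    obtain ⟨S, hS, h1⟩ := ihs
    obtain ⟨S', hS', h2⟩ := iht
    refine ⟨S ∪ S', hS.union hS', fun M x y h => ?_⟩
    show s.val x + t.val x = s.val y + t.val y
    rw [h1 M x y fun v hv => h v (Or.inl hv), h2 M x y fun v hv => h v (Or.inr hv)]
  | mul s t ihs iht =>
    obtain ⟨S, hS, h1⟩ := ihs
    obtain ⟨S', hS', h2⟩ := iht
    refine ⟨S ∪ S', hS.union hS', fun M x y h => ?_⟩
    show s.val x * t.val x = s.val y * t.val y
    rw [h1 M x y fun v hv => h v (Or.inl hv), h2 M x y fun v hv => h v (Or.inr hv)]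
  | smul a b t ih =>
    obtain ⟨S, hS, h1⟩ := ih
    refine ⟨S, hS, fun M x y h => ?_⟩
    show _ • t.val x = _ • t.val y
    rw [h1 M x y h]
  | adj t ih =>
    obtain ⟨S, hS, h1⟩ := ih
    refine ⟨S, hS, fun M x y h => ?_⟩
    show star (t.val x) = star (t.val y)
    rw [h1 M x y h]

/-- a formula depends on finitely many variables -/
theorem Fml.supp {V : Type} {n : ℕ} (φ : Fml V n) : ∃ S : Set V, S.Finite ∧
    ∀ (M : TVNA) (a b : V → M.A) (x : Fin n → M.A), (∀ v ∈ S, a v = b v) →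
      φ.val M.τ M.ball a x = φ.val M.τ M.ball b x := by
  have key : ∀ {m : ℕ} (t : Tm (V ⊕ Fin m)), ∃ S : Set V, S.Finite ∧
    ∀ (M : TVNA) (a b : V → M.A) (x : Fin m → M.A), (∀ v ∈ S, a v = b v) →
      t.val (Sum.elim a x) = t.val (Sum.elim b x) := by
    intro m t
    obtain ⟨S, hS, h⟩ := t.supp
    refine ⟨Sum.inl ⁻¹' S, hS.preimage Sum.inl_injective.injOn, fun M a b x hab => ?_⟩
    refine h M _ _ ?_
    rintro (v | i) hv
    · exact hab v hv
    · rfl
  induction φ with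
  | re t =>
    obtain ⟨S, hS, h⟩ := key t
    refine ⟨S, hS, fun M a b x hab => ?_⟩
    show (M.τ (t.val (Sum.elim a x))).re = (M.τ (t.val (Sum.elim b x))).re
    rw [h M a b x hab]
  | im t =>
    obtain ⟨S, hS, h⟩ := key t
    refine ⟨S, hS, fun M a b x hab => ?_⟩
    show (M.τ (t.val (Sum.elim a x))).im = (M.τ (t.val (Sum.elim b x))).im
    rw [h M a b x hab]
  | dist s t =>
    obtain ⟨S, hS, h1⟩ := key s
    obtain ⟨S', hS', h2⟩ := key t
    refine ⟨S ∪ S', hS.union hS', fun M a b x hab => ?_⟩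
    show norm2 M.τ (s.val (Sum.elim a x) - t.val (Sum.elim a x)) =
      norm2 M.τ (s.val (Sum.elim b x) - t.val (Sum.elim b x))
    rw [h1 M a b x fun v hv => hab v (Or.inl hv), h2 M a b x fun v hv => hab v (Or.inr hv)]
  | conn k u hu φ ih =>
    choose S hS h using ih
    refine ⟨⋃ i, S i, Set.finite_iUnion hS, fun M a b x hab => ?_⟩
    show u (fun i => (φ i).val M.τ M.ball a x) = u (fun i => (φ i).val M.τ M.ball b x)
    congr 1
    funext i
    exact h i M a b x fun v hv => hab v (Set.mem_iUnion.2 ⟨i, hv⟩)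
  | sup r φ ih =>
    obtain ⟨S, hS, h⟩ := ih
    refine ⟨S, hS, fun M a b x hab => ?_⟩
    show (⨆ y : M.ball r, φ.val M.τ M.ball a (Fin.snoc x (y : M.A))) =
      ⨆ y : M.ball r, φ.val M.τ M.ball b (Fin.snoc x (y : M.A))
    exact iSup_congr fun y => h M a b _ hab
  | inf r φ ih =>
    obtain ⟨S, hS, h⟩ := ih
    refine ⟨S, hS, fun M a b x hab => ?_⟩
    show (⨅ y : M.ball r, φ.val M.τ M.ball a (Fin.snoc x (y : M.A))) =
      ⨅ y : M.ball r, φ.val M.τ M.ball b (Fin.snoc x (y : M.A))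
    exact iInf_congr fun y => h M a b _ hab

/-- trace preserving isomorphisms -/
structure IsIso {M N : TVNA} (f : M.A → N.A) : Prop where
  zero : f 0 = 0
  one : f 1 = 1
  add : ∀ x y, f (x + y) = f x + f y
  mul : ∀ x y, f (x * y) = f x * f y
  smul : ∀ (c : ℂ) x, f (c • x) = c • f x
  star : ∀ x, f (star x) = star (f x)
  tr : ∀ x, N.τ (f x) = M.τ x
  norm : ∀ x, ‖f x‖ = ‖x‖
  surj : Function.Surjective f

theorem IsIso.term {M N : TVNA} {f : M.A → N.A} (h : IsIso f) {V : Type} (t : Tm V) (x : V → M.A) :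
    t.val (f ∘ x) = f (t.val x) := by
  induction t with
  | var v => rfl
  | zero => exact h.zero.symm
  | one => exact h.one.symm
  | add s t ihs iht =>
    show s.val (f ∘ x) + t.val (f ∘ x) = f (s.val x + t.val x)
    rw [ihs, iht, h.add]
  | mul s t ihs iht =>
    show s.val (f ∘ x) * t.val (f ∘ x) = f (s.val x * t.val x)
    rw [ihs, iht, h.mul]
  | smul a b t ih =>
    show ((a : ℂ) + (b : ℂ) * Complex.I) • t.val (f ∘ x) =
      f (((a : ℂ) + (b : ℂ) * Complex.I) • t.val x)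
    rw [ih, h.smul]
  | adj t ih =>
    show Star.star (t.val (f ∘ x)) = f (Star.star (t.val x))
    rw [ih, h.star]

theorem IsIso.sub {M N : TVNA} {f : M.A → N.A} (h : IsIso f) (x y : M.A) :
    f (x - y) = f x - f y := by
  have h1 := h.add (x - y) y
  rw [sub_add_cancel] at h1
  rw [h1, add_sub_cancel_right]

theorem IsIso.norm2 {M N : TVNA} {f : M.A → N.A} (h : IsIso f) (x : M.A) :
    norm2 N.τ (f x) = norm2 M.τ x := by
  unfold Helper278.norm2
  rw [← h.star, ← h.mul, h.tr]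

theorem IsIso.val {M N : TVNA} {f : M.A → N.A} (h : IsIso f) {V : Type} {n : ℕ} (φ : Fml V n) :
    ∀ (a : V → M.A) (x : Fin n → M.A), φ.val N.τ N.ball (f ∘ a) (f ∘ x) = φ.val M.τ M.ball a x := by
  have hball : ∀ (r : ℕ+) (y : M.A), f y ∈ N.ball r ↔ y ∈ M.ball r := by
    intro r y
    rw [N.mem_ball, M.mem_ball, h.norm]
  have key : ∀ {m : ℕ} (t : Tm (V ⊕ Fin m)) (a : V → M.A) (x : Fin m → M.A),
      t.val (Sum.elim (f ∘ a) (f ∘ x)) = f (t.val (Sum.elim a x)) := by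
    intro m t a x
    rw [← Sum.comp_elim, h.term]
  induction φ with
  | re t =>
    intro a x
    show (N.τ (t.val (Sum.elim (f ∘ a) (f ∘ x)))).re = (M.τ (t.val (Sum.elim a x))).re
    rw [key, h.tr]
  | im t =>
    intro a x
    show (N.τ (t.val (Sum.elim (f ∘ a) (f ∘ x)))).im = (M.τ (t.val (Sum.elim a x))).im
    rw [key, h.tr]
  | dist s t =>
    intro a x
    show Helper278.norm2 N.τ (s.val (Sum.elim (f ∘ a) (f ∘ x)) -
      t.val (Sum.elim (f ∘ a) (f ∘ x))) =
      Helper278.norm2 M.τ (s.val (Sum.elim a x) - t.val (Sum.elim a x))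
    rw [key, key, ← h.sub, h.norm2]
  | conn k u hu φ ih =>
    intro a x
    show u (fun i => (φ i).val N.τ N.ball (f ∘ a) (f ∘ x)) = u (fun i => (φ i).val M.τ M.ball a x)
    congr 1
    funext i
    exact ih i a x
  | sup r φ ih =>
    intro a x
    show (⨆ y : N.ball r, φ.val N.τ N.ball (f ∘ a) (Fin.snoc (f ∘ x) (y : N.A))) =
      ⨆ y : M.ball r, φ.val M.τ M.ball a (Fin.snoc x (y : M.A))
    let g : M.ball r → N.ball r := fun y => ⟨f y, (hball r y).2 y.2⟩
    have hg : Function.Surjective g := by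
      rintro ⟨z, hz⟩
      obtain ⟨y, rfl⟩ := h.surj z
      exact ⟨⟨y, (hball r y).1 hz⟩, rfl⟩
    rw [← hg.iSup_comp]
    refine iSup_congr fun y => ?_
    have h2 : Fin.snoc (α := fun _ => N.A) (f ∘ x) ((g y : N.ball r) : N.A) =
        f ∘ Fin.snoc (α := fun _ => M.A) x (y : M.A) := by
      rw [Fin.comp_snoc]
    rw [h2]
    exact ih a _
  | inf r φ ih =>
    intro a x
    show (⨅ y : N.ball r, φ.val N.τ N.ball (f ∘ a) (Fin.snoc (f ∘ x) (y : N.A))) =
      ⨅ y : M.ball r, φ.val M.τ M.ball a (Fin.snoc x (y : M.A))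
    let g : M.ball r → N.ball r := fun y => ⟨f y, (hball r y).2 y.2⟩
    have hg : Function.Surjective g := by
      rintro ⟨z, hz⟩
      obtain ⟨y, rfl⟩ := h.surj z
      exact ⟨⟨y, (hball r y).1 hz⟩, rfl⟩
    rw [← hg.iInf_comp]
    refine iInf_congr fun y => ?_
    have h2 : Fin.snoc (α := fun _ => N.A) (f ∘ x) ((g y : N.ball r) : N.A) =
        f ∘ Fin.snoc (α := fun _ => M.A) x (y : M.A) := by
      rw [Fin.comp_snoc]
    rw [h2]
    exact ih a _

theorem IsIso.eval {M N : TVNA} {f : M.A → N.A} (h : IsIso f) {V : Type} (φ : Fml V 0)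
    (a : V → M.A) : N.eval φ (f ∘ a) = M.eval φ a := by
  unfold TVNA.eval
  rw [← h.val φ a Fin.elim0]
  congr 1
  exact Subsingleton.elim _ _

/-- conjugation by a unitary -/
theorem isIso_conj {M : TVNA} (w : M.A) (h1 : star w * w = 1) (h2 : w * star w = 1) :
    IsIso (fun x : M.A => w * x * star w) := by
  have hw : w ∈ unitary M.A := Unitary.mem_iff.2 ⟨h1, h2⟩
  have hw2 : (w : M.H →L[ℂ] M.H) ∈ unitary (M.H →L[ℂ] M.H) :=
    Unitary.mem_iff.2 ⟨congrArg Subtype.val h1, congrArg Subtype.val h2⟩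
  refine ⟨?_, ?_, ?_, ?_, ?_, ?_, ?_, ?_, ?_⟩
  · rw [mul_zero, zero_mul]
  · rw [mul_one, h2]
  · intro x y
    rw [mul_add, add_mul]
  · intro x y
    calc w * (x * y) * star w = w * x * 1 * y * star w := by noncomm_ring
      _ = w * x * star w * (w * y * star w) := by rw [← h1]; noncomm_ring
  · intro c x
    rw [mul_smul_comm, smul_mul_assoc]
  · intro x
    rw [star_mul, star_mul, star_star, mul_assoc]
  · intro x
    rw [M.trace.tracial, ← mul_assoc, h1, one_mul]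
  · intro x
    show ‖(w : M.H →L[ℂ] M.H) * (x : M.H →L[ℂ] M.H) * star (w : M.H →L[ℂ] M.H)‖ =
      ‖(x : M.H →L[ℂ] M.H)‖
    rw [CStarRing.norm_mul_mem_unitary _ (Unitary.star_mem hw2), CStarRing.norm_mem_unitary_mul _ hw2]
  · intro y
    refine ⟨star w * y * w, ?_⟩
    calc w * (star w * y * w) * star w = (w * star w) * y * (w * star w) := by noncomm_ring
      _ = y := by rw [h2, one_mul, mul_one]

end Pool.Agent.H690R2.NS
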