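import Mathlib
import Pool.Agent.H690R2.NS.Base
import Pool.Agent.Helper278.Model
import Pool.Agent.Helper278.CEMod
import Pool.Agent.Helper278.CEBall
import Pool.Agent.Helper278.CEFactor

/-!
# The tracial ultrapower and the theorem of Łoś
-/

set_option autoImplicit false

open scoped InnerProductSpace ComplexOrder Topology BoundedContinuousFunction
open Filter

namespace Pool.Agent.H690R2.NS

open Pool.Agent.Helper278

/-- `P` is a model of the tracial ultrapower of `M`. -/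
structure UP (M P : TVNA) (U : Ultrafilter ℕ) (π : (ℕ →ᵇ M.A) →⋆ₐ[ℂ] P.A) : Prop where
  tr : ∀ x : ℕ →ᵇ M.A, Tendsto (fun n => M.τ (x n)) U (𝓝 (P.τ (π x)))
  ball : ∀ (r : ℕ+) (x : ℕ →ᵇ M.A), (∀ n, x n ∈ M.ball r) → π x ∈ P.ball r
  lift : ∀ (r : ℕ+) (q : P.A), q ∈ P.ball r → ∃ x : ℕ →ᵇ M.A, (∀ n, x n ∈ M.ball r) ∧ π x = q

theorem exists_UP (M : TVNA) (U : Ultrafilter ℕ) (hU : ∀ n, {n} ∉ U) :
    ∃ (P : TVNA) (π : (ℕ →ᵇ M.A) →⋆ₐ[ℂ] P.A), UP M P U π := by
  obtain ⟨Q, _, _, _, _, π, σ, hπ⟩ := exists_ultrapower M.T U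
  have h := sigma_trAlg hπ
  have hB := CE.ball_ultra hU hπ
  obtain ⟨K, iK1, iK2, iK3, j, hd, hj⟩ := CE.exists_gns h
  set e := CE.LmEquiv h hd hj hB with he
  have htau : ∀ q : Q, CE.tauM j (e q) = σ q := fun q => CE.tauM_LmEquiv h hd hj hB q
  have htau2 : ∀ p : Elt (CE.MM j), CE.tauM j p = sigmaL hπ (e.symm p) := by
    intro p
    rw [← CE.tauM_LmEquiv h hd hj hB, ← he, e.apply_symm_apply]
  have htr : IsFaithfulTrace (CE.tauM j) := by
    refine ⟨?_, ?_, ?_⟩
    · rw [htau2, map_one, h.one]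
    · intro x y
      rw [htau2, htau2, map_mul e.symm, map_mul e.symm, h.comm]
    · intro x hx
      rw [htau2, map_mul e.symm, map_star e.symm] at hx
      have h1 := h.faithful _ hx
      rw [← e.apply_symm_apply x, h1, map_zero]
  let P : TVNA :=
    { H := K
      N := CE.MM j
      τ := CE.tauM j
      trace := htr
      normal := CE.normal_vector (CE.MM j) _ (j 1) fun _ => rfl }
  have hcoe : ∀ q : Q, ((e q : Elt (CE.MM j)) : K →L[ℂ] K) = CE.Lm j q := fun q => rfl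
  let θ : (ℕ →ᵇ M.A) →⋆ₐ[ℂ] P.A := (CE.LmHom h hd hj hB).comp π
  have hθ : ∀ x, θ x = e (π x) := fun x => rfl
  refine ⟨P, θ, ⟨?_, ?_, ?_⟩⟩
  · intro x
    show Tendsto (fun n => M.τ (x n)) U (𝓝 (CE.tauM j (e (π x))))
    rw [htau]
    exact hπ.trace x
  · intro r x hx
    have hr : (0 : ℝ) < ((r : ℕ) : ℝ) := Nat.cast_pos.2 r.pos
    set c : ℂ := (((r : ℕ) : ℝ) : ℂ) with hc
    have hcn : ‖c‖ = (r : ℕ) := by
      rw [hc, Complex.norm_real, Real.norm_eq_abs, abs_of_pos hr]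
    have hc0 : c ≠ 0 := by
      intro h0
      rw [h0, norm_zero] at hcn
      exact hr.ne hcn
    have h1 : π (c⁻¹ • x) ∈ CE.ballQ π := by
      refine ⟨c⁻¹ • x, fun n => ?_, rfl⟩
      show ‖c⁻¹ • x n‖ ≤ 1
      rw [norm_smul, norm_inv, hcn, inv_mul_le_iff₀ hr, mul_one]
      exact hx n
    have h2 := CE.norm_Lm_le h hd hj hB _ h1
    have h3 : θ x = c • e (π (c⁻¹ • x)) := by
      rw [hθ, ← map_smul, ← map_smul, smul_smul, mul_inv_cancel₀ hc0, one_smul]
    rw [h3]
    show ‖c • CE.Lm j (π (c⁻¹ • x))‖ ≤ (r : ℕ)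
    rw [norm_smul, hcn]
    calc ((r : ℕ) : ℝ) * ‖CE.Lm j (π (c⁻¹ • x))‖ ≤ (r : ℕ) * 1 :=
          mul_le_mul_of_nonneg_left h2 hr.le
      _ = (r : ℕ) := mul_one _
  · intro r q hq
    have hr : (0 : ℝ) < ((r : ℕ) : ℝ) := Nat.cast_pos.2 r.pos
    set c : ℂ := (((r : ℕ) : ℝ) : ℂ) with hc
    have hcn : ‖c‖ = (r : ℕ) := by
      rw [hc, Complex.norm_real, Real.norm_eq_abs, abs_of_pos hr]
    have hc0 : c ≠ 0 := by
      intro h0
      rw [h0, norm_zero] at hcn
      exact hr.ne hcn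
    have hq' : ‖(q : K →L[ℂ] K)‖ ≤ (r : ℕ) := hq
    have hT1 : ‖c⁻¹ • (q : K →L[ℂ] K)‖ ≤ 1 := by
      rw [norm_smul, norm_inv, hcn, inv_mul_le_iff₀ hr, mul_one]
      exact hq'
    have hmem : c⁻¹ • (q : K →L[ℂ] K) ∈ CE.MM j := (c⁻¹ • (q : Elt (CE.MM j))).2
    obtain ⟨a, ⟨x, hx, hxa⟩, ha⟩ := CE.exists_of_mem h hd hj hB _ hmem hT1
    refine ⟨c • x, fun n => ?_, ?_⟩
    · rw [M.mem_ball]
      show ‖c • x n‖ ≤ (r : ℕ)
      rw [norm_smul, hcn]
      calc ((r : ℕ) : ℝ) * ‖x n‖ ≤ (r : ℕ) * 1 := mul_le_mul_of_nonneg_left (hx n) hr.le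
        _ = (r : ℕ) := mul_one _
    · rw [hθ, map_smul, hxa, map_smul]
      apply Subtype.ext
      show c • CE.Lm j a = (q : K →L[ℂ] K)
      rw [← ha, smul_smul, mul_inv_cancel₀ hc0, one_smul]

section los

variable {M P : TVNA} {U : Ultrafilter ℕ} {π : (ℕ →ᵇ M.A) →⋆ₐ[ℂ] P.A}

theorem UP.term {V : Type} (t : Tm V) (x : V → (ℕ →ᵇ M.A)) : ∃ y : ℕ →ᵇ M.A,
    (∀ n, y n = t.val (fun v => x v n)) ∧ π y = t.val (fun v => π (x v)) := by
  induction t with
  | var v => exact ⟨x v, fun n => rfl, rfl⟩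
  | zero => exact ⟨0, fun n => rfl, map_zero π⟩
  | one => exact ⟨1, fun n => rfl, map_one π⟩
  | add s t ihs iht =>
    obtain ⟨y, hy, hy'⟩ := ihs
    obtain ⟨z, hz, hz'⟩ := iht
    refine ⟨y + z, fun n => ?_, ?_⟩
    · show y n + z n = s.val _ + t.val _
      rw [hy, hz]
    · show π (y + z) = s.val _ + t.val _
      rw [map_add, hy', hz']
  | mul s t ihs iht =>
    obtain ⟨y, hy, hy'⟩ := ihs
    obtain ⟨z, hz, hz'⟩ := iht
    refine ⟨y * z, fun n => ?_, ?_⟩
    · show y n * z n = s.val _ * t.val _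
      rw [hy, hz]
    · show π (y * z) = s.val _ * t.val _
      rw [map_mul, hy', hz']
  | smul a b t ih =>
    obtain ⟨y, hy, hy'⟩ := ih
    refine ⟨((a : ℂ) + (b : ℂ) * Complex.I) • y, fun n => ?_, ?_⟩
    · show ((a : ℂ) + (b : ℂ) * Complex.I) • y n = ((a : ℂ) + (b : ℂ) * Complex.I) • t.val _
      rw [hy]
    · show π (((a : ℂ) + (b : ℂ) * Complex.I) • y) = ((a : ℂ) + (b : ℂ) * Complex.I) • t.val _
      rw [map_smul, hy']
  | adj t ih =>
    obtain ⟨y, hy, hy'⟩ := ih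
    refine ⟨star y, fun n => ?_, ?_⟩
    · show star (y n) = star (t.val _)
      rw [hy]
    · show π (star y) = star (t.val _)
      rw [map_star, hy']

theorem UP.n2 (h : UP M P U π) (x : ℕ →ᵇ M.A) :
    Tendsto (fun n => norm2 M.τ (x n)) U (𝓝 (norm2 P.τ (π x))) := by
  have h1 := h.tr (star x * x)
  rw [map_mul, map_star] at h1
  unfold norm2
  exact (Real.continuous_sqrt.tendsto _).comp ((Complex.continuous_re.tendsto _).comp h1)

theorem snoc_apply {n : ℕ} (x : Fin n → (ℕ →ᵇ M.A)) (y : ℕ →ᵇ M.A) (m : ℕ) :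
    (fun i => (Fin.snoc (α := fun _ => ℕ →ᵇ M.A) x y i) m) =
      Fin.snoc (α := fun _ => M.A) (fun i => x i m) (y m) := by
  funext i
  refine Fin.lastCases ?_ (fun i => ?_) i
  · rw [Fin.snoc_last, Fin.snoc_last]
  · rw [Fin.snoc_castSucc, Fin.snoc_castSucc]

theorem snoc_pi {n : ℕ} (x : Fin n → (ℕ →ᵇ M.A)) (y : ℕ →ᵇ M.A) :
    (fun i => π (Fin.snoc (α := fun _ => ℕ →ᵇ M.A) x y i)) =
      Fin.snoc (α := fun _ => P.A) (fun i => π (x i)) (π y) := by
  funext i
  refine Fin.lastCases ?_ (fun i => ?_) i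
  · rw [Fin.snoc_last, Fin.snoc_last]
  · rw [Fin.snoc_castSucc, Fin.snoc_castSucc]

/-- a sequence in a ball -/
noncomputable def mkSeq (r : ℕ+) (y : ℕ → M.A) (hy : ∀ n, y n ∈ M.ball r) : ℕ →ᵇ M.A :=
  BoundedContinuousFunction.ofNormedAddCommGroupDiscrete y (r : ℕ) hy

theorem mkSeq_apply (r : ℕ+) (y : ℕ → M.A) (hy : ∀ n, y n ∈ M.ball r) (n : ℕ) :
    mkSeq r y hy n = y n := rfl

/-- bounds for the values of a formula with one more variable -/
theorem bdd_snoc {V : Type} {n : ℕ} (r : ℕ+) (φ : Fml V (n + 1)) (a : V → (ℕ →ᵇ M.A))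
    (x : Fin n → (ℕ →ᵇ M.A)) : ∃ B : ℝ,
    (∀ m, ∀ y : M.ball r,
      |φ.val M.τ M.ball (fun v => a v m) (Fin.snoc (fun i => x i m) (y : M.A))| ≤ B) ∧
    ∀ y : P.ball r, |φ.val P.τ P.ball (fun v => π (a v)) (Fin.snoc (fun i => π (x i)) (y : P.A))| ≤ B := by
  obtain ⟨B, hB⟩ := φ.bdd (fun v => max ‖a v‖ ‖π (a v)‖)
    (Fin.snoc (α := fun _ => ℝ) (fun i => max ‖x i‖ ‖π (x i)‖) (r : ℕ))
  refine ⟨B, fun m y => ?_, fun y => ?_⟩
  · refine hB M _ _ (fun v => ((a v).norm_coe_le_norm m).trans (le_max_left _ _)) fun i => ?_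
    refine Fin.lastCases ?_ (fun i => ?_) i
    · rw [Fin.snoc_last, Fin.snoc_last]
      exact y.2
    · rw [Fin.snoc_castSucc, Fin.snoc_castSucc]
      exact ((x i).norm_coe_le_norm m).trans (le_max_left _ _)
  · refine hB P _ _ (fun v => le_max_right _ _) fun i => ?_
    refine Fin.lastCases ?_ (fun i => ?_) i
    · rw [Fin.snoc_last, Fin.snoc_last]
      exact y.2
    · rw [Fin.snoc_castSucc, Fin.snoc_castSucc]
      exact le_max_right _ _

/-- The theorem of Łoś. -/
theorem UP.los (h : UP M P U π) {V : Type} {n : ℕ} (φ : Fml V n) (a : V → (ℕ →ᵇ M.A)) :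
    ∀ x : Fin n → (ℕ →ᵇ M.A),
      Tendsto (fun m => φ.val M.τ M.ball (fun v => a v m) (fun i => x i m)) U
        (𝓝 (φ.val P.τ P.ball (fun v => π (a v)) (fun i => π (x i)))) := by
  have key : ∀ {n : ℕ} (t : Tm (V ⊕ Fin n)) (x : Fin n → (ℕ →ᵇ M.A)), ∃ y : ℕ →ᵇ M.A,
      (∀ m, y m = t.val (Sum.elim (fun v => a v m) (fun i => x i m))) ∧
        π y = t.val (Sum.elim (fun v => π (a v)) (fun i => π (x i))) := by
    intro n t x
    obtain ⟨y, hy, hy'⟩ := UP.term (π := π) t (Sum.elim a x)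
    refine ⟨y, fun m => ?_, ?_⟩
    · rw [hy]
      congr 1
      funext v
      rcases v with v | i <;> rfl
    · rw [hy']
      congr 1
      funext v
      rcases v with v | i <;> rfl
  induction φ with
  | re t =>
    intro x
    obtain ⟨y, hy, hy'⟩ := key t x
    have h1 := (Complex.continuous_re.tendsto _).comp (h.tr y)
    rw [hy'] at h1
    refine h1.congr fun m => ?_
    show (M.τ (y m)).re = (M.τ (t.val _)).re
    rw [hy]
  | im t =>
    intro x
    obtain ⟨y, hy, hy'⟩ := key t x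
    have h1 := (Complex.continuous_im.tendsto _).comp (h.tr y)
    rw [hy'] at h1
    refine h1.congr fun m => ?_
    show (M.τ (y m)).im = (M.τ (t.val _)).im
    rw [hy]
  | dist s t =>
    intro x
    obtain ⟨y, hy, hy'⟩ := key s x
    obtain ⟨z, hz, hz'⟩ := key t x
    have h1 := h.n2 (y - z)
    rw [map_sub, hy', hz'] at h1
    refine h1.congr fun m => ?_
    show norm2 M.τ (y m - z m) = norm2 M.τ (s.val _ - t.val _)
    rw [hy, hz]
  | conn k u hu φ ih =>
    intro x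
    show Tendsto (fun m => u fun i => (φ i).val M.τ M.ball (fun v => a v m) (fun i => x i m)) U
      (𝓝 (u fun i => (φ i).val P.τ P.ball (fun v => π (a v)) (fun i => π (x i))))
    exact (hu.tendsto _).comp (tendsto_pi_nhds.2 fun i => ih i x)
  | @sup n r φ ih =>
    intro x
    obtain ⟨B, hB1, hB2⟩ := bdd_snoc (π := π) r φ a x
    have hbM : ∀ m, BddAbove (Set.range fun y : M.ball r =>
        φ.val M.τ M.ball (fun v => a v m) (Fin.snoc (fun i => x i m) (y : M.A))) := fun m =>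
      ⟨B, by rintro _ ⟨y, rfl⟩; exact (abs_le.1 (hB1 m y)).2⟩
    have hbP : BddAbove (Set.range fun y : P.ball r =>
        φ.val P.τ P.ball (fun v => π (a v)) (Fin.snoc (fun i => π (x i)) (y : P.A))) :=
      ⟨B, by rintro _ ⟨y, rfl⟩; exact (abs_le.1 (hB2 y)).2⟩
    have hstep : ∀ y : ℕ →ᵇ M.A, Tendsto (fun m => φ.val M.τ M.ball (fun v => a v m)
        (Fin.snoc (fun i => x i m) (y m))) U
        (𝓝 (φ.val P.τ P.ball (fun v => π (a v)) (Fin.snoc (fun i => π (x i)) (π y)))) := by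
      intro y
      have h1 := ih (Fin.snoc (α := fun _ => ℕ →ᵇ M.A) x y)
      rw [snoc_pi] at h1
      refine h1.congr fun m => ?_
      rw [snoc_apply]
    show Tendsto (fun m => ⨆ y : M.ball r, φ.val M.τ M.ball (fun v => a v m)
        (Fin.snoc (fun i => x i m) (y : M.A))) U
      (𝓝 (⨆ y : P.ball r, φ.val P.τ P.ball (fun v => π (a v)) (Fin.snoc (fun i => π (x i)) (y : P.A))))
    rw [tendsto_order]
    constructor
    · intro L hL
      obtain ⟨q, hq⟩ := exists_lt_of_lt_ciSup hL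
      obtain ⟨y, hy, hyq⟩ := h.lift r q q.2
      have h1 := hstep y
      rw [hyq] at h1
      refine (h1.eventually (lt_mem_nhds hq)).mono fun m hm => ?_
      exact hm.trans_le (le_ciSup (hbM m) ⟨y m, hy m⟩)
    · intro L hL
      set S := ⨆ y : P.ball r, φ.val P.τ P.ball (fun v => π (a v)) (Fin.snoc (fun i => π (x i)) (y : P.A))
        with hS
      set ε := (L - S) / 2 with hε
      have hε0 : 0 < ε := by rw [hε]; linarith
      have hex : ∀ m, ∃ y : M.ball r, (⨆ y : M.ball r, φ.val M.τ M.ball (fun v => a v m)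
          (Fin.snoc (fun i => x i m) (y : M.A))) - ε <
          φ.val M.τ M.ball (fun v => a v m) (Fin.snoc (fun i => x i m) (y : M.A)) := fun m =>
        exists_lt_of_lt_ciSup (by linarith)
      choose y hy using hex
      have h1 := hstep (mkSeq r (fun m => (y m : M.A)) fun m => (y m).2)
      have h2 : φ.val P.τ P.ball (fun v => π (a v)) (Fin.snoc (fun i => π (x i))
          (π (mkSeq r (fun m => (y m : M.A)) fun m => (y m).2))) ≤ S :=
        le_ciSup hbP ⟨_, h.ball r _ fun m => (y m).2⟩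
      have h3 : φ.val P.τ P.ball (fun v => π (a v)) (Fin.snoc (fun i => π (x i))
          (π (mkSeq r (fun m => (y m : M.A)) fun m => (y m).2))) < S + ε := by linarith
      refine (h1.eventually (gt_mem_nhds h3)).mono fun m hm => ?_
      have h4 := hy m
      have h5 : φ.val M.τ M.ball (fun v => a v m) (Fin.snoc (fun i => x i m) (y m : M.A)) < S + ε := hm
      have h6 : S + ε + ε = L := by rw [hε]; ring
      linarith
  | @inf n r φ ih =>
    intro x
    obtain ⟨B, hB1, hB2⟩ := bdd_snoc (π := π) r φ a x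
    have hbM : ∀ m, BddBelow (Set.range fun y : M.ball r =>
        φ.val M.τ M.ball (fun v => a v m) (Fin.snoc (fun i => x i m) (y : M.A))) := fun m =>
      ⟨-B, by rintro _ ⟨y, rfl⟩; exact (abs_le.1 (hB1 m y)).1⟩
    have hbP : BddBelow (Set.range fun y : P.ball r =>
        φ.val P.τ P.ball (fun v => π (a v)) (Fin.snoc (fun i => π (x i)) (y : P.A))) :=
      ⟨-B, by rintro _ ⟨y, rfl⟩; exact (abs_le.1 (hB2 y)).1⟩
    have hstep : ∀ y : ℕ →ᵇ M.A, Tendsto (fun m => φ.val M.τ M.ball (fun v => a v m)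
        (Fin.snoc (fun i => x i m) (y m))) U
        (𝓝 (φ.val P.τ P.ball (fun v => π (a v)) (Fin.snoc (fun i => π (x i)) (π y)))) := by
      intro y
      have h1 := ih (Fin.snoc (α := fun _ => ℕ →ᵇ M.A) x y)
      rw [snoc_pi] at h1
      refine h1.congr fun m => ?_
      rw [snoc_apply]
    show Tendsto (fun m => ⨅ y : M.ball r, φ.val M.τ M.ball (fun v => a v m)
        (Fin.snoc (fun i => x i m) (y : M.A))) U
      (𝓝 (⨅ y : P.ball r, φ.val P.τ P.ball (fun v => π (a v)) (Fin.snoc (fun i => π (x i)) (y : P.A))))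
    rw [tendsto_order]
    constructor
    · intro L hL
      set S := ⨅ y : P.ball r, φ.val P.τ P.ball (fun v => π (a v)) (Fin.snoc (fun i => π (x i)) (y : P.A))
        with hS
      set ε := (S - L) / 2 with hε
      have hε0 : 0 < ε := by rw [hε]; linarith
      have hex : ∀ m, ∃ y : M.ball r, φ.val M.τ M.ball (fun v => a v m)
          (Fin.snoc (fun i => x i m) (y : M.A)) < (⨅ y : M.ball r, φ.val M.τ M.ball (fun v => a v m)
          (Fin.snoc (fun i => x i m) (y : M.A))) + ε := fun m =>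
        exists_lt_of_ciInf_lt (by linarith)
      choose y hy using hex
      have h1 := hstep (mkSeq r (fun m => (y m : M.A)) fun m => (y m).2)
      have h2 : S ≤ φ.val P.τ P.ball (fun v => π (a v)) (Fin.snoc (fun i => π (x i))
          (π (mkSeq r (fun m => (y m : M.A)) fun m => (y m).2))) :=
        ciInf_le hbP ⟨_, h.ball r _ fun m => (y m).2⟩
      have h3 : S - ε < φ.val P.τ P.ball (fun v => π (a v)) (Fin.snoc (fun i => π (x i))
          (π (mkSeq r (fun m => (y m : M.A)) fun m => (y m).2))) := by linarith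
      refine (h1.eventually (lt_mem_nhds h3)).mono fun m hm => ?_
      have h4 := hy m
      have h5 : S - ε < φ.val M.τ M.ball (fun v => a v m) (Fin.snoc (fun i => x i m) (y m : M.A)) := hm
      have h6 : S - ε - ε = L := by rw [hε]; ring
      linarith
    · intro L hL
      obtain ⟨q, hq⟩ := exists_lt_of_ciInf_lt hL
      obtain ⟨y, hy, hyq⟩ := h.lift r q q.2
      have h1 := hstep y
      rw [hyq] at h1
      refine (h1.eventually (gt_mem_nhds hq)).mono fun m hm => ?_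
      exact (ciInf_le (hbM m) ⟨y m, hy m⟩).trans_lt hm

theorem UP.theory (h : UP M P U π) : P.theory = M.theory := by
  have key : ∀ φ : Fml Empty 0, P.eval φ Empty.elim = M.eval φ Empty.elim := by
    intro φ
    have h1 := h.los φ (fun v => v.elim) Fin.elim0
    have e1 : ∀ m, φ.val M.τ M.ball (fun v => (Empty.elim v : ℕ →ᵇ M.A) m)
        (fun i => (Fin.elim0 i : ℕ →ᵇ M.A) m) = M.eval φ Empty.elim := by
      intro m
      unfold TVNA.eval
      congr 1
      · funext v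
        exact v.elim
      · funext i
        exact i.elim0
    have e2 : φ.val P.τ P.ball (fun v => π (Empty.elim v)) (fun i => π (Fin.elim0 i)) =
        P.eval φ Empty.elim := by
      unfold TVNA.eval
      congr 1
      · funext v
        exact v.elim
      · funext i
        exact i.elim0
    rw [e2] at h1
    have h2 : Tendsto (fun _ : ℕ => M.eval φ Empty.elim) U (𝓝 (P.eval φ Empty.elim)) :=
      h1.congr e1
    exact tendsto_nhds_unique h2 tendsto_const_nhds
  ext φ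
  show P.eval φ Empty.elim = 0 ↔ M.eval φ Empty.elim = 0
  rw [key]

end los

end Pool.Agent.H690R2.NS
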