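import Mathlib
import Pool.Agent.H690R2.NS.Base
import Pool.Agent.Helper278.GroupMain
import Pool.Agent.Helper278.Factor
import Pool.Agent.Helper278.TraceUniq

/-!
# Matrix units in II₁ factors
-/

set_option autoImplicit false
set_option linter.unusedSectionVars false

open scoped InnerProductSpace ComplexOrder Topology

namespace Pool.Agent.H690R2.NS

open Pool.Agent.Helper278

/-- systems of matrix units -/
structure IsMU {A : Type*} [Ring A] [StarRing A] {ι : Type*} [Fintype ι] (E : ι → ι → A) :
    Prop where
  same : ∀ i j l, E i j * E j l = E i l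
  ne : ∀ i j k l, j ≠ k → E i j * E k l = 0
  adj : ∀ i j, star (E i j) = E j i
  sum : ∑ i, E i i = 1

theorem exists_units (M : TVNA) (hM : IsIIOneFactor M.N M.τ) (ι : Type) [Fintype ι]
    [Nonempty ι] : ∃ E : ι → ι → M.A, IsMU E := by
  classical
  have hA := trAlg M.T
  have hL : LyapProp M.T.τ := lyapProp M.T (diffuse_of_factor M.T hM.center hM.infinite)
  have hcard : 0 < Fintype.card ι := Fintype.card_pos
  have hp0 : Pos (0 : M.A) := by
    have := pos_star_mul (0 : M.A)
    rwa [star_zero, zero_mul] at this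
  obtain ⟨e', he1, he2, -⟩ := hA.equal_pieces hL 0 0 (star_zero _) (star_zero _) rfl hp0
    (by rw [sub_zero]; exact pos_one) (by rw [sub_zero]; exact pos_one) (zero_mul _) 0
    (Fintype.card ι) hcard (Or.inl rfl)
  let eq1 : ι ≃ Fin (Fintype.card ι) := Fintype.equivFin ι
  let e : ι → M.A := fun i => e' (Sum.inr (eq1 i))
  have hstar : ∀ i, star (e i) = e i := fun i => he1.star_eq _
  have hidem : ∀ i, e i * e i = e i := fun i => he1.idem _
  have horth : ∀ i j, i ≠ j → e i * e j = 0 := fun i j hij =>
    he1.orth _ _ (fun h => hij (eq1.injective (Sum.inr_injective h)))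
  have hsum : ∑ i, e i = 1 := by
    have h1 := he1.sum
    rw [Fintype.sum_sum_type] at h1
    simp only [Finset.univ_eq_empty, Finset.sum_empty, zero_add] at h1
    rw [← h1]
    exact eq1.sum_comp fun k => e' (Sum.inr k)
  let i0 : ι := Classical.arbitrary ι
  have hv : ∀ i, ∃ v : M.A, star v * v = e i0 ∧ v * star v = e i := fun i =>
    exists_equiv M.T hM.center _ _ (hstar _) (hidem _) (hstar _) (hidem _)
      ((he2 _).trans (he2 _).symm)
  choose v hv1 hv2 using hv
  have hv3 : ∀ i, v i * e i0 = v i := by
    intro i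
    have h1 : v i * (1 - e i0) = 0 := by
      apply hA.faithful
      have h2 : star (v i * (1 - e i0)) * (v i * (1 - e i0)) =
          (1 - e i0) * (star (v i) * v i) * (1 - e i0) := by
        rw [star_mul, star_sub, star_one, hstar]
        noncomm_ring
      rw [h2, hv1]
      have h3 : (1 - e i0) * e i0 * (1 - e i0) = 0 := by
        have : (1 - e i0) * e i0 = 0 := by rw [sub_mul, one_mul, hidem, sub_self]
        rw [this, zero_mul]
      rw [h3, map_zero]
    rw [mul_sub, mul_one, sub_eq_zero] at h1
    exact h1.symm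
  have hv4 : ∀ i, e i * v i = v i := by
    intro i
    rw [← hv2, mul_assoc, hv1, hv3]
  have hv5 : ∀ i, star (v i) * e i = star (v i) := by
    intro i
    have h1 := congrArg star (hv4 i)
    rwa [star_mul, hstar] at h1
  have hv6 : ∀ i, e i0 * star (v i) = star (v i) := by
    intro i
    have h1 := congrArg star (hv3 i)
    rwa [star_mul, hstar] at h1
  refine ⟨fun i j => v i * star (v j), ?_, ?_, ?_, ?_⟩
  · intro i j l
    calc v i * star (v j) * (v j * star (v l)) = v i * (star (v j) * v j) * star (v l) := by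
          noncomm_ring
      _ = v i * star (v l) := by rw [hv1, hv3]
  · intro i j k l hjk
    calc v i * star (v j) * (v k * star (v l)) =
        v i * (star (v j) * e j) * (e k * v k) * star (v l) := by rw [hv5, hv4]; noncomm_ring
      _ = v i * star (v j) * (e j * e k) * v k * star (v l) := by noncomm_ring
      _ = 0 := by rw [horth j k hjk, mul_zero, zero_mul, zero_mul]
  · intro i j
    rw [star_mul, star_star]
  · show ∑ i, v i * star (v i) = 1
    rw [← hsum]
    exact Finset.sum_congr rfl fun i _ => hv2 i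

section mucalc

variable {A : Type*} [Ring A] [StarRing A] {ι : Type*} [Fintype ι] [DecidableEq ι]
  {E : ι → ι → A}

/-- diagonal projections -/
def dg (E : ι → ι → A) (S : ι → Bool) : A := ∑ s, if S s then E s s else 0

/-- permutation unitaries -/
def pm (E : ι → ι → A) (e : Equiv.Perm ι) : A := ∑ s, E (e s) s

theorem IsMU.mul (h : IsMU E) (i j k l : ι) : E i j * E k l = if j = k then E i l else 0 := by
  by_cases hjk : j = k
  · subst hjk
    rw [h.same, if_pos rfl]
  · rw [h.ne _ _ _ _ hjk, if_neg hjk]

theorem IsMU.dg_star (h : IsMU E) (S : ι → Bool) : star (dg E S) = dg E S := by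
  unfold dg
  rw [star_sum]
  refine Finset.sum_congr rfl fun s _ => ?_
  split_ifs
  · exact h.adj s s
  · exact star_zero _

theorem IsMU.dg_mul (h : IsMU E) (S T : ι → Bool) :
    dg E S * dg E T = ∑ s, if S s && T s then E s s else 0 := by
  unfold dg
  rw [Finset.sum_mul_sum]
  refine Finset.sum_congr rfl fun s _ => ?_
  rw [Finset.sum_eq_single s]
  · by_cases h1 : S s = true
    · by_cases h2 : T s = true
      · simp [h1, h2, h.same]
      · simp [h1, h2]
    · simp [h1]
  · intro t _ hts
    by_cases h1 : S s = true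
    · by_cases h2 : T t = true
      · simp [h1, h2, h.ne s s t t (Ne.symm hts)]
      · simp [h1, h2]
    · simp [h1]
  · intro hs
    exact absurd (Finset.mem_univ s) hs

theorem IsMU.dg_idem (h : IsMU E) (S : ι → Bool) : dg E S * dg E S = dg E S := by
  rw [h.dg_mul]
  unfold dg
  simp

theorem IsMU.pm_star_mul (h : IsMU E) (e : Equiv.Perm ι) : star (pm E e) * pm E e = 1 := by
  unfold pm
  rw [star_sum, Finset.sum_mul_sum, ← h.sum]
  refine Finset.sum_congr rfl fun s _ => ?_
  rw [Finset.sum_eq_single s]
  · rw [h.adj, h.same]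
  · intro t _ hts
    rw [h.adj]
    exact h.ne _ _ _ _ fun hh => hts (e.injective hh).symm
  · intro hs
    exact absurd (Finset.mem_univ s) hs

theorem IsMU.pm_mul_star (h : IsMU E) (e : Equiv.Perm ι) : pm E e * star (pm E e) = 1 := by
  unfold pm
  rw [star_sum, Finset.sum_mul_sum]
  have : ∀ s : ι, ∑ t, E (e s) s * star (E (e t) t) = E (e s) (e s) := by
    intro s
    rw [Finset.sum_eq_single s]
    · rw [h.adj, h.same]
    · intro t _ hts
      rw [h.adj]
      exact h.ne _ _ _ _ (Ne.symm hts)
    · intro hs
      exact absurd (Finset.mem_univ s) hs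
  rw [Finset.sum_congr rfl fun s _ => this s, Equiv.sum_comp e fun s => E s s, h.sum]

theorem IsMU.pm_mul_dg (h : IsMU E) (e : Equiv.Perm ι) (S T : ι → Bool)
    (hST : ∀ s, T (e s) = S s) : pm E e * dg E S = dg E T * pm E e := by
  have h1 : pm E e * dg E S = ∑ s, if S s then E (e s) s else 0 := by
    unfold pm dg
    rw [Finset.sum_mul_sum]
    refine Finset.sum_congr rfl fun s _ => ?_
    rw [Finset.sum_eq_single s]
    · by_cases h1 : S s = true
      · simp [h1, h.same]
      · simp [h1]
    · intro t _ hts
      by_cases h1 : S t = true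
      · simp [h1, h.ne _ _ _ _ (Ne.symm hts)]
      · simp [h1]
    · intro hs
      exact absurd (Finset.mem_univ s) hs
  have h2 : dg E T * pm E e = ∑ s, if S s then E (e s) s else 0 := by
    unfold pm dg
    rw [← Equiv.sum_comp e fun s => if T s then E s s else 0, Finset.sum_mul_sum]
    refine Finset.sum_congr rfl fun s _ => ?_
    rw [hST, Finset.sum_eq_single s]
    · by_cases h1 : S s = true
      · simp [h1, h.same]
      · simp [h1]
    · intro t _ hts
      by_cases h1 : S s = true
      · simp [h1, h.ne (e s) (e s) (e t) t fun hh => hts (e.injective hh).symm]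
      · simp [h1]
    · intro hs
      exact absurd (Finset.mem_univ s) hs
  rw [h1, h2]

/-- the square of a difference of diagonal projections -/
theorem IsMU.dg_sub_sq (h : IsMU E) (S T : ι → Bool) :
    (dg E S - dg E T) * (dg E S - dg E T) = ∑ s, if xor (S s) (T s) then E s s else 0 := by
  have h1 : (dg E S - dg E T) * (dg E S - dg E T) =
      dg E S * dg E S - dg E S * dg E T - dg E T * dg E S + dg E T * dg E T := by noncomm_ring
  rw [h1, h.dg_mul, h.dg_mul, h.dg_mul, h.dg_mul, ← Finset.sum_sub_distrib,
    ← Finset.sum_sub_distrib, ← Finset.sum_add_distrib]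
  refine Finset.sum_congr rfl fun s _ => ?_
  cases S s <;> cases T s <;> simp

theorem IsMU.trace (h : IsMU E) (τ : A → ℂ) (hadd : ∀ x y, τ (x + y) = τ x + τ y)
    (h1 : τ 1 = 1) (hτ : ∀ x y, τ (x * y) = τ (y * x)) (s : ι) :
    (Fintype.card ι : ℂ) * τ (E s s) = 1 := by
  have h2 : ∀ t, τ (E t t) = τ (E s s) := by
    intro t
    rw [← h.same t s t, hτ, h.same]
  let f : A →+ ℂ := AddMonoidHom.mk' τ hadd
  have h3 : f (∑ t, E t t) = 1 := by rw [h.sum]; exact h1
  rw [map_sum] at h3
  have h4 : ∀ t, f (E t t) = τ (E s s) := h2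
  rw [Finset.sum_congr rfl fun t _ => h4 t, Finset.sum_const, Finset.card_univ, nsmul_eq_mul] at h3
  exact h3

end mucalc

/-- the distance of two independent projections -/
theorem dist_legs {Λ : Type} [Fintype Λ] [DecidableEq Λ] (M : TVNA)
    {E : (Λ → Bool) → (Λ → Bool) → M.A} (h : IsMU E) (a b : Λ) (hab : a ≠ b) :
    norm2 M.τ (dg E (fun s => s a) - dg E (fun s => s b)) = Real.sqrt (1 / 2) := by
  classical
  unfold norm2
  rw [star_sub, h.dg_star, h.dg_star, h.dg_sub_sq]
  congr 1
  have hK := h.trace M.τ (fun x y => map_add M.T.τ x y) M.trace.one M.trace.tracial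
  have hcard : (Fintype.card (Λ → Bool) : ℂ) ≠ 0 := by
    rw [Nat.cast_ne_zero]
    exact Fintype.card_ne_zero
  set K : ℂ := (Fintype.card (Λ → Bool) : ℂ) with hKdef
  have h1 : ∀ s, M.T.τ (E s s) = K⁻¹ := by
    intro s
    exact eq_inv_of_mul_eq_one_right (hK s)
  have h2 : M.T.τ (∑ s : Λ → Bool, if xor (s a) (s b) then E s s else 0) =
      ∑ s : Λ → Bool, if xor (s a) (s b) then K⁻¹ else 0 := by
    rw [map_sum]
    refine Finset.sum_congr rfl fun s _ => ?_
    split_ifs
    · exact h1 s
    · exact map_zero _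
  -- the involution
  let fl : Equiv.Perm (Λ → Bool) :=
    { toFun := fun s => Function.update s a (!s a)
      invFun := fun s => Function.update s a (!s a)
      left_inv := fun s => by simp
      right_inv := fun s => by simp }
  have h3 : ∑ s : Λ → Bool, (if xor (s a) (s b) then K⁻¹ else 0) =
      ∑ s : Λ → Bool, if xor (s a) (s b) then 0 else K⁻¹ := by
    rw [← Equiv.sum_comp fl]
    refine Finset.sum_congr rfl fun s _ => ?_
    have e1 : (fl s) a = !s a := by simp [fl]
    have e2 : (fl s) b = s b := by simp [fl, hab.symm]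
    rw [e1, e2]
    cases s a <;> cases s b <;> simp
  have h4 : (∑ s : Λ → Bool, (if xor (s a) (s b) then K⁻¹ else 0)) +
      ∑ s : Λ → Bool, (if xor (s a) (s b) then 0 else K⁻¹) = 1 := by
    rw [← Finset.sum_add_distrib]
    have : ∀ s : Λ → Bool, (if xor (s a) (s b) then K⁻¹ else 0) +
        (if xor (s a) (s b) then 0 else K⁻¹) = K⁻¹ := by
      intro s
      split_ifs <;> simp
    rw [Finset.sum_congr rfl fun s _ => this s, Finset.sum_const, Finset.card_univ, nsmul_eq_mul]
    exact mul_inv_cancel₀ hcard
  rw [← h3] at h4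
  show (M.T.τ (∑ s : Λ → Bool, if xor (s a) (s b) then E s s else 0)).re = 1 / 2
  rw [h2]
  have h5 := congrArg Complex.re h4
  rw [Complex.add_re, Complex.one_re] at h5
  linarith

end Pool.Agent.H690R2.NS
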