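import Mathlib
import Pool.Agent.H690R2.NS.Los
import Pool.Agent.H690R2.NS.Units

/-!
# The theory of a II₁ factor is not simple
-/

set_option autoImplicit false

open scoped InnerProductSpace ComplexOrder Topology BoundedContinuousFunction
open Filter

namespace Pool.Agent.H690R2.NS

open Pool.Agent.Helper278

/-- partial bijections of a finite set extend to permutations -/
theorem exists_perm {Λ V : Type} [Finite Λ] (S : Set V) (a b : V → Λ)
    (h : ∀ v ∈ S, ∀ v' ∈ S, a v = a v' ↔ b v = b v') :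
    ∃ σ : Equiv.Perm Λ, ∀ v ∈ S, σ (a v) = b v := by
  classical
  have _ := Fintype.ofFinite Λ
  let f : Λ → Λ := fun l => if h : ∃ v ∈ S, a v = l then b h.choose else l
  have hf : ∀ v ∈ S, f (a v) = b v := by
    intro v hv
    have hex : ∃ v' ∈ S, a v' = a v := ⟨v, hv, rfl⟩
    show (if h : ∃ v' ∈ S, a v' = a v then b h.choose else a v) = b v
    rw [dif_pos hex]
    exact (h _ hex.choose_spec.1 v hv).1 hex.choose_spec.2
  let s : Finset Λ := Finset.univ.filter fun l => ∃ v ∈ S, a v = l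
  have hinj : Set.InjOn f (s : Set Λ) := by
    intro l hl l' hl' hll
    obtain ⟨v, hv, rfl⟩ := (Finset.mem_filter.1 (Finset.mem_coe.1 hl)).2
    obtain ⟨v', hv', rfl⟩ := (Finset.mem_filter.1 (Finset.mem_coe.1 hl')).2
    rw [hf v hv, hf v' hv'] at hll
    exact (h v hv v' hv').2 hll
  obtain ⟨g, hg⟩ := Finset.exists_equiv_extend_of_card_eq (α := Λ) (t := (Finset.univ : Finset Λ))
    (s := s) (f := f) (by rw [Finset.card_univ]) (Finset.subset_univ _) hinj
  let σ : Equiv.Perm Λ := g.trans (Equiv.subtypeUnivEquiv fun x => Finset.mem_univ x)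
  refine ⟨σ, fun v hv => ?_⟩
  have h1 : σ (a v) = (g (a v) : Λ) := rfl
  rw [h1, hg (a v) (Finset.mem_filter.2 ⟨Finset.mem_univ _, v, hv, rfl⟩), hf v hv]

/-- the index set of the projections -/
abbrev J : Type := Fin 3 × (ℕ → Bool)

/-- the legs at level `n` -/
abbrev Leg (n : ℕ) : Type := Fin 3 × (Fin n → Bool)

/-- the restriction -/
def rho (n : ℕ) (c : J) : Leg n := (c.1, fun i => c.2 i)

theorem rho_ne {c c' : J} (h : c ≠ c') : ∃ n0 : ℕ, ∀ n ≥ n0, rho n c ≠ rho n c' := by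
  by_cases h1 : c.1 = c'.1
  · have h2 : c.2 ≠ c'.2 := fun h2 => h (Prod.ext h1 h2)
    obtain ⟨m, hm⟩ := Function.ne_iff.1 h2
    refine ⟨m + 1, fun n hn hh => hm ?_⟩
    have h3 := congrArg (fun l : Leg n => l.2 ⟨m, by omega⟩) hh
    exact h3
  · exact ⟨0, fun n _ hh => h1 (congrArg (fun l : Leg n => l.1) hh)⟩

/-- the index permutation induced by a permutation of the legs -/
def ind {Λ : Type} (σ : Equiv.Perm Λ) : Equiv.Perm (Λ → Bool) := Equiv.arrowCongr σ (Equiv.refl _)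

theorem ind_apply {Λ : Type} (σ : Equiv.Perm Λ) (s : Λ → Bool) (l : Λ) :
    ind σ s (σ l) = s l := by
  simp [ind, Equiv.arrowCongr]

section config

variable {M P : TVNA} {U : Ultrafilter ℕ} {π : (ℕ →ᵇ M.A) →⋆ₐ[ℂ] P.A}

theorem UP.eq_of_eventually (h : UP M P U π) (x y : ℕ →ᵇ M.A)
    (hxy : ∀ᶠ n in (U : Filter ℕ), x n = y n) : π x = π y := by
  have h1 := h.tr (star (x - y) * (x - y))
  have h2 : Tendsto (fun n => M.τ ((star (x - y) * (x - y)) n)) U (𝓝 0) := by
    refine tendsto_const_nhds.congr' (hxy.mono fun n hn => ?_)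
    show 0 = M.τ (star (x n - y n) * (x n - y n))
    rw [hn, sub_self, mul_zero]
    exact (map_zero M.T.τ).symm
  have h3 := tendsto_nhds_unique h1 h2
  rw [map_mul, map_star] at h3
  have h4 := P.trace.faithful _ h3
  rwa [map_sub, sub_eq_zero] at h4

variable (E : ∀ n, (Leg n → Bool) → (Leg n → Bool) → M.A)

/-- the projections in the ultrapower -/
noncomputable def pr (π : (ℕ →ᵇ M.A) →⋆ₐ[ℂ] P.A) (hE : ∀ n, IsMU (E n)) (c : J) : P.A :=
  π (mkSeq 1 (fun n => dg (E n) fun s => s (rho n c)) fun n => by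
    rw [M.mem_ball]
    simpa using norm_proj_le _ ((hE n).dg_star _) ((hE n).dg_idem _))

/-- the unitaries in the ultrapower -/
noncomputable def un (π : (ℕ →ᵇ M.A) →⋆ₐ[ℂ] P.A) (hE : ∀ n, IsMU (E n))
    (σ : ∀ n, Equiv.Perm (Leg n)) : P.A :=
  π (mkSeq 1 (fun n => pm (E n) (ind (σ n))) fun n => by
    rw [M.mem_ball]
    have h1 : ‖(1 : M.A)‖ ≤ 1 := ContinuousLinearMap.norm_id_le
    simpa using norm_partial_le _ _ h1 ((hE n).pm_star_mul _))

variable {E}

theorem un_mem (h : UP M P U π) (hE : ∀ n, IsMU (E n)) (σ : ∀ n, Equiv.Perm (Leg n)) :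
    un E π hE σ ∈ P.ball 1 := h.ball 1 _ fun n => by
  show pm (E n) (ind (σ n)) ∈ M.ball 1
  rw [M.mem_ball]
  have h1 : ‖(1 : M.A)‖ ≤ 1 := ContinuousLinearMap.norm_id_le
  simpa using norm_partial_le _ _ h1 ((hE n).pm_star_mul _)

theorem un_star_mul (h : UP M P U π) (hE : ∀ n, IsMU (E n)) (σ : ∀ n, Equiv.Perm (Leg n)) :
    star (un E π hE σ) * un E π hE σ = 1 := by
  unfold un
  rw [← map_star, ← map_mul, ← map_one π]
  refine h.eq_of_eventually _ _ (Eventually.of_forall fun n => ?_)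
  exact (hE n).pm_star_mul _

theorem un_mul_star (h : UP M P U π) (hE : ∀ n, IsMU (E n)) (σ : ∀ n, Equiv.Perm (Leg n)) :
    un E π hE σ * star (un E π hE σ) = 1 := by
  unfold un
  rw [← map_star, ← map_mul, ← map_one π]
  refine h.eq_of_eventually _ _ (Eventually.of_forall fun n => ?_)
  exact (hE n).pm_mul_star _

theorem un_mul_pr (h : UP M P U π) (hE : ∀ n, IsMU (E n)) (σ : ∀ n, Equiv.Perm (Leg n))
    (c c' : J) (hc : ∀ᶠ n in (U : Filter ℕ), σ n (rho n c) = rho n c') :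
    un E π hE σ * pr E π hE c = pr E π hE c' * un E π hE σ := by
  unfold un pr
  rw [← map_mul, ← map_mul]
  refine h.eq_of_eventually _ _ (hc.mono fun n hn => ?_)
  refine (hE n).pm_mul_dg _ _ _ fun s => ?_
  rw [← hn, ind_apply]

/-- unitary equivalence of tuples of projections -/
theorem exists_un (h : UP M P U π) (hU : (U : Filter ℕ) ≤ atTop) (hE : ∀ n, IsMU (E n)) {V : Type}
    {S : Set V} (hS : S.Finite) (κ κ' : V → J)
    (hκ : ∀ v ∈ S, ∀ v' ∈ S, κ v = κ v' ↔ κ' v = κ' v') :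
    ∃ w : P.A, star w * w = 1 ∧ w * star w = 1 ∧
      ∀ v ∈ S, w * pr E π hE (κ v) * star w = pr E π hE (κ' v) := by
  classical
  -- a level from which on `rho` is injective
  have hex : ∀ v v' : V, ∃ n0 : ℕ, ∀ n ≥ n0, (rho n (κ v) = rho n (κ v') ↔ κ v = κ v') ∧
      (rho n (κ' v) = rho n (κ' v') ↔ κ' v = κ' v') := by
    intro v v'
    have h1 : ∀ c c' : J, ∃ n0 : ℕ, ∀ n ≥ n0, (rho n c = rho n c' ↔ c = c') := by
      intro c c'
      by_cases hcc : c = c'
      · exact ⟨0, fun n _ => by rw [hcc]; simp⟩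
      · obtain ⟨n0, hn0⟩ := rho_ne hcc
        exact ⟨n0, fun n hn => ⟨fun hh => absurd hh (hn0 n hn), fun hh => absurd hh hcc⟩⟩
    obtain ⟨n1, hn1⟩ := h1 (κ v) (κ v')
    obtain ⟨n2, hn2⟩ := h1 (κ' v) (κ' v')
    exact ⟨max n1 n2, fun n hn => ⟨hn1 n (le_of_max_le_left hn), hn2 n (le_of_max_le_right hn)⟩⟩
  choose n0 hn0 using hex
  obtain ⟨N, hN⟩ : ∃ N : ℕ, ∀ v ∈ S, ∀ v' ∈ S, n0 v v' ≤ N := by
    have hfin : (Set.image2 n0 S S).Finite := hS.image2 _ hS
    obtain ⟨N, hN⟩ := hfin.bddAbove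
    exact ⟨N, fun v hv v' hv' => hN ⟨v, hv, v', hv', rfl⟩⟩
  have hσ : ∀ n, ∃ σ : Equiv.Perm (Leg n), N ≤ n → ∀ v ∈ S, σ (rho n (κ v)) = rho n (κ' v) := by
    intro n
    by_cases hn : N ≤ n
    · obtain ⟨σ, hσ⟩ := exists_perm S (fun v => rho n (κ v)) (fun v => rho n (κ' v)) (by
        intro v hv v' hv'
        have h1 := hn0 v v' n ((hN v hv v' hv').trans hn)
        show rho n (κ v) = rho n (κ v') ↔ rho n (κ' v) = rho n (κ' v')
        rw [h1.1, h1.2]
        exact hκ v hv v' hv')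
      exact ⟨σ, fun _ => hσ⟩
    · exact ⟨Equiv.refl _, fun h => absurd h hn⟩
  choose σ hσ using hσ
  refine ⟨un E π hE σ, un_star_mul h hE σ, un_mul_star h hE σ, fun v hv => ?_⟩
  rw [un_mul_pr h hE σ (κ v) (κ' v) (hU ((eventually_ge_atTop N).mono fun n hn => hσ n hn v hv)),
    mul_assoc, un_mul_star h hE σ, mul_one]

theorem pr_dist (h : UP M P U π) (hU : (U : Filter ℕ) ≤ atTop) (hE : ∀ n, IsMU (E n)) (c c' : J)
    (hc : c ≠ c') : norm2 P.τ (pr E π hE c - pr E π hE c') = Real.sqrt (1 / 2) := by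
  obtain ⟨n0, hn0⟩ := rho_ne hc
  unfold pr
  rw [← map_sub]
  refine tendsto_nhds_unique (h.n2 _) ?_
  refine tendsto_const_nhds.congr' (hU ((eventually_ge_atTop n0).mono fun n hn => ?_))
  exact (dist_legs M (hE n) _ _ (hn0 n hn)).symm

end config

theorem not_simple (R : TVNA) (hR : IsIIOneFactor R.N R.τ) : ¬ IsSimple R.theory := by
  classical
  intro hs
  set U : Ultrafilter ℕ := Filter.hyperfilter ℕ with hUdef
  have hU : (U : Filter ℕ) ≤ atTop := by
    rw [hUdef, ← Nat.cofinite_eq_atTop]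
    exact Filter.hyperfilter_le_cofinite
  have hU' : ∀ n, {n} ∉ U := fun n => Filter.notMem_hyperfilter_of_finite (Set.finite_singleton n)
  obtain ⟨P, π, h⟩ := exists_UP R U hU'
  choose E hE using fun n => exists_units R hR (Leg n → Bool)
  set p : J → P.A := pr E π hE with hp
  have hd : ∀ c c' : J, c ≠ c' → norm2 P.τ (p c - p c') = Real.sqrt (1 / 2) :=
    fun c c' hc => pr_dist h hU hE c c' hc
  have h12 : (0 : ℝ) < Real.sqrt (1 / 2) := Real.sqrt_pos.2 (by norm_num)
  have h0 : norm2 P.τ (0 : P.A) = 0 := by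
    rw [P.norm2_eq]
    exact (trAlg P.T).n2_zero
  have hinj : Function.Injective p := by
    intro c c' hcc
    by_contra hne
    have := hd c c' hne
    rw [hcc, sub_self, h0] at this
    exact h12.ne this
  -- the flip
  let σ : ∀ n, Equiv.Perm (Leg n) := fun n =>
    Equiv.prodCongr (Equiv.swap (0 : Fin 3) 1) (Equiv.refl _)
  set u : P.A := un E π hE σ with hu
  have hu1 : u ∈ P.ball 1 := un_mem h hE σ
  have hu2 : u * star u = 1 := un_mul_star h hE σ
  have hu3 : ∀ α : ℕ → Bool, u * p (0, α) = p (1, α) * u := by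
    intro α
    refine un_mul_pr h hE σ _ _ (Eventually.of_forall fun n => ?_)
    show (Equiv.swap (0 : Fin 3) 1 0, _) = _
    rw [Equiv.swap_apply_left]
    rfl
  -- the parameters
  let B : Set P.A := {x | ∃ c : J, (c.1 = 0 ∨ c.1 = 1) ∧ p c = x}
  have hid : IsElem (M := P) (N := P) id := fun V φ a => rfl
  obtain ⟨A, hAB, hsep, hnd⟩ := hs P (h.theory.ge) B P id hid 1 (fun _ => 1) (fun _ => u)
    (fun _ => hu1)
  apply hnd
  -- `A` is countable
  have hAc : A.Countable := by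
    obtain ⟨D, hDA, hDc, hD⟩ := hsep
    refine hDc.mono fun x hx => ?_
    obtain ⟨y, hy, hxy⟩ := hD x hx (Real.sqrt (1 / 2)) h12
    obtain ⟨c, -, hc⟩ := hAB hx
    obtain ⟨c', -, hc'⟩ := hAB (hDA hy)
    by_cases hcc : c = c'
    · rw [← hc, hcc, hc']
      exact hy
    · rw [← hc, ← hc', hd c c' hcc] at hxy
      exact absurd hxy (lt_irrefl _)
  obtain ⟨α, hα⟩ : ∃ α : ℕ → Bool, p (1, α) ∉ A := by
    by_contra hcon
    push Not at hcon
    have h1 : (Set.univ : Set (ℕ → Bool)).Countable := by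
      have h2 : (Set.univ : Set (ℕ → Bool)) = (fun α : ℕ → Bool => p (1, α)) ⁻¹' A := by
        ext α
        exact ⟨fun _ => hcon α, fun _ => trivial⟩
      rw [h2]
      refine hAc.preimage_of_injOn ?_
      intro α _ β _ hαβ
      exact congrArg (fun c : J => c.2) (hinj hαβ)
    have h3 : Uncountable (ℕ → Bool) := by
      rw [← Cardinal.aleph0_lt_mk_iff]
      simpa using Cardinal.aleph0_lt_continuum
    exact (not_countable_iff.2 h3) (Set.countable_univ_iff.1 h1)
  set c0 : J := (1, α) with hc0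
  have hidx : ∀ x : B, ∃ c : J, (c.1 = 0 ∨ c.1 = 1) ∧ p c = x := fun x => x.2
  choose idx hidx1 hidx2 using hidx
  -- the replacements
  let β : ℕ → (ℕ → Bool) := fun i m => decide (m = i)
  have hβ : Function.Injective β := by
    intro i i' hii
    have h1 := congrFun hii i
    simpa [β] using h1
  let r : ℕ → J := fun i => if i = 0 then c0 else (2, β i)
  have hr0 : r 0 = c0 := if_pos rfl
  have hr1 : ∀ i, i ≠ 0 → r i = (2, β i) := fun i hi => if_neg hi
  have hrinj : ∀ i i', r i = r i' ↔ i = i' := by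
    intro i i'
    constructor
    · intro hii
      by_cases hi : i = 0
      · by_cases hi' : i' = 0
        · rw [hi, hi']
        · rw [hi, hr0, hr1 i' hi'] at hii
          have : (1 : Fin 3) = 2 := congrArg (fun c : J => c.1) hii
          exact absurd this (by decide)
      · by_cases hi' : i' = 0
        · rw [hi', hr0, hr1 i hi] at hii
          have : (2 : Fin 3) = 1 := congrArg (fun c : J => c.1) hii
          exact absurd this (by decide)
        · rw [hr1 i hi, hr1 i' hi'] at hii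
          exact hβ (congrArg (fun c : J => c.2) hii)
    · rintro rfl
      rfl
  have hrne : ∀ (i : ℕ) (c : J), (c.1 = 0 ∨ c.1 = 1) → c ≠ c0 → r i ≠ c := by
    intro i c hc hcc hh
    by_cases hi : i = 0
    · rw [hi, hr0] at hh
      exact hcc hh.symm
    · rw [hr1 i hi] at hh
      rw [← hh] at hc
      rcases hc with hc | hc
      · exact absurd (show (2 : Fin 3) = 0 from hc) (by decide)
      · exact absurd (show (2 : Fin 3) = 1 from hc) (by decide)
  let io : ℕ → J → J := fun i c => if c = c0 then r i else c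
  have hio1 : ∀ i, io i c0 = r i := fun i => if_pos rfl
  have hio2 : ∀ i c, c ≠ c0 → io i c = c := fun i c hc => if_neg hc
  have hio : ∀ (i i' j j' : ℕ) (c c' : J), (c.1 = 0 ∨ c.1 = 1) → (c'.1 = 0 ∨ c'.1 = 1) →
      (i = i' ↔ j = j') → (io i c = io i' c' ↔ io j c = io j' c') := by
    intro i i' j j' c c' hc hc' hij
    by_cases h1 : c = c0
    · by_cases h2 : c' = c0
      · rw [h1, h2, hio1, hio1, hio1, hio1, hrinj, hrinj, hij]
      · rw [h1, hio1, hio1, hio2 _ _ h2, hio2 _ _ h2]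
        exact ⟨fun hh => absurd hh (hrne _ _ hc' h2), fun hh => absurd hh (hrne _ _ hc' h2)⟩
    · by_cases h2 : c' = c0
      · rw [h2, hio1, hio1, hio2 _ _ h1, hio2 _ _ h1]
        exact ⟨fun hh => absurd hh.symm (hrne _ _ hc h1), fun hh => absurd hh.symm (hrne _ _ hc h1)⟩
      · rw [hio2 _ _ h1, hio2 _ _ h1, hio2 _ _ h2, hio2 _ _ h2]
  refine ⟨P, id, fun i x => p (io i (idx x)), hid, ?_, ?_, ?_⟩
  · funext x
    show p (io 0 (idx x)) = x
    by_cases hx : idx x = c0
    · rw [hx, hio1, hr0, ← hx, hidx2]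
    · rw [hio2 _ _ hx, hidx2]
  · -- indiscernibility
    intro n φ s t hs ht
    obtain ⟨S, hS, hsupp⟩ := φ.supp
    have hpar : ∀ a : (id '' A : Set P.A), ∃ c : J, (c.1 = 0 ∨ c.1 = 1) ∧ c ≠ c0 ∧ p c = a := by
      rintro ⟨_, a, ha, rfl⟩
      obtain ⟨c, hc1, hc2⟩ := hAB ha
      refine ⟨c, hc1, fun hcc => hα ?_, hc2⟩
      rw [← hcc, hc2]
      exact ha
    choose ka hka1 hka2 hka3 using hpar
    let κ : (ℕ → ℕ) → ((id '' A : Set P.A) ⊕ Fin n × B) → J := fun _ => Sum.elim ka fun _ => c0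
    let kap : (Fin n → ℕ) → ((id '' A : Set P.A) ⊕ Fin n × B) → J := fun s =>
      Sum.elim ka fun v => io (s v.1) (idx v.2)
    have hpat : ∀ v v', kap s v = kap s v' ↔ kap t v = kap t v' := by
      have hst : ∀ i i' : Fin n, (s i = s i' ↔ t i = t i') := fun i i' =>
        ⟨fun hh => by rw [hs.injective hh], fun hh => by rw [ht.injective hh]⟩
      rintro (v | ⟨i, v⟩) (v' | ⟨i', v'⟩)
      · exact Iff.rfl
      · show ka v = io (s i') (idx v') ↔ ka v = io (t i') (idx v')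
        rw [← hio2 (s i') (ka v) (hka2 v)]
        have := hio (s i') (s i') (t i') (t i') (ka v) (idx v') (hka1 v) (hidx1 v')
          ⟨fun _ => rfl, fun _ => rfl⟩
        rw [hio2 (t i') (ka v) (hka2 v)] at this
        rw [this, hio2 (s i') (ka v) (hka2 v)]
      · show io (s i) (idx v) = ka v' ↔ io (t i) (idx v) = ka v'
        have := hio (s i) (s i) (t i) (t i) (idx v) (ka v') (hidx1 v) (hka1 v')
          ⟨fun _ => rfl, fun _ => rfl⟩
        rw [hio2 (t i) (ka v') (hka2 v'), hio2 (s i) (ka v') (hka2 v')] at this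
        exact this
      · exact hio _ _ _ _ _ _ (hidx1 v) (hidx1 v') (hst i i')
    obtain ⟨w, hw1, hw2, hw⟩ := exists_un h hU hE hS (kap s) (kap t) fun v _ v' _ => hpat v v'
    have e1 : ∀ s : Fin n → ℕ, (Sum.elim (fun a : (id '' A : Set P.A) => (a : P.A))
        fun v : Fin n × B => p (io (s v.1) (idx v.2))) = p ∘ kap s := by
      intro s
      funext v
      rcases v with v | v
      · exact (hka3 v).symm
      · rfl
    rw [e1 s, e1 t]
    have e2 := (isIso_conj w hw1 hw2).eval φ (p ∘ kap s)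
    rw [← e2]
    exact hsupp P _ _ _ hw
  · -- inconsistency
    rintro P' g hg ⟨x, hx⟩
    have hB0 : p (0, α) ∈ B := ⟨_, Or.inl rfl, rfl⟩
    have hB1 : p (1, α) ∈ B := ⟨_, Or.inr rfl, rfl⟩
    let φ1 : Fml (B ⊕ Fin 1) 0 := Fml.dist
      (Tm.mul (Tm.var (Sum.inl (Sum.inr 0))) (Tm.var (Sum.inl (Sum.inl ⟨_, hB0⟩))))
      (Tm.mul (Tm.var (Sum.inl (Sum.inl ⟨_, hB1⟩))) (Tm.var (Sum.inl (Sum.inr 0))))
    let φ2 : Fml (B ⊕ Fin 1) 0 := Fml.dist
      (Tm.mul (Tm.var (Sum.inl (Sum.inr 0))) (Tm.adj (Tm.var (Sum.inl (Sum.inr 0))))) Tm.one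
    have hφ1 : φ1 ∈ typeOver (M := P) (N := P) id B (fun _ : Fin 1 => u) := by
      show norm2 P.τ (u * p (0, α) - p (1, α) * u) = 0
      rw [hu3, sub_self, h0]
    have hφ2 : φ2 ∈ typeOver (M := P) (N := P) id B (fun _ : Fin 1 => u) := by
      show norm2 P.τ (u * star u - 1) = 0
      rw [hu2, sub_self, h0]
    have hz : ∀ y : P'.A, norm2 P'.τ y = 0 → y = 0 := by
      intro y hy
      apply P'.trace.faithful
      have h1 := (trAlg P'.T).n2_sq y
      have h2 : n2 P'.T.τ y = 0 := hy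
      rw [h2] at h1
      apply Complex.ext
      · have : (P'.τ (star y * y)).re = 0 ^ 2 := h1.symm
        rw [this]
        simp
      · exact (trAlg P'.T).im_zero y
    have hi0 : idx ⟨_, hB0⟩ = (0, α) := hinj (hidx2 _)
    have hi1 : idx ⟨_, hB1⟩ = c0 := hinj (hidx2 _)
    have hne : ((0, α) : J) ≠ c0 := by
      intro hh
      have : (0 : Fin 3) = 1 := congrArg (fun c : J => c.1) hh
      exact absurd this (by decide)
    have key : ∀ i, g (p (r i)) = x 0 * g (p (0, α)) * star (x 0) := by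
      intro i
      have h1 := hz _ ((hx i).2 φ1 hφ1)
      have h2 := hz _ ((hx i).2 φ2 hφ2)
      have h1' : x 0 * g (p (io i (idx ⟨_, hB0⟩))) - g (p (io i (idx ⟨_, hB1⟩))) * x 0 = 0 := h1
      have h2' : x 0 * star (x 0) - 1 = 0 := h2
      rw [hi0, hi1, hio1, hio2 _ _ hne, sub_eq_zero] at h1'
      rw [sub_eq_zero] at h2'
      rw [h1', mul_assoc, h2', mul_one]
    have h01 : g (p (r 0)) = g (p (r 1)) := by rw [key 0, key 1]
    have h5 := hg (Fin 2) (Fml.dist (Tm.var (Sum.inl 0)) (Tm.var (Sum.inl 1)))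
      ![p (r 0), p (r 1)]
    have h6 : norm2 P'.τ (g (p (r 0)) - g (p (r 1))) = norm2 P.τ (p (r 0) - p (r 1)) := h5
    have h7 : norm2 P'.τ (0 : P'.A) = 0 := by
      rw [P'.norm2_eq]
      exact (trAlg P'.T).n2_zero
    rw [h01, sub_self, h7, hd (r 0) (r 1) (fun hh => absurd ((hrinj 0 1).1 hh) (by decide))] at h6
    exact h12.ne h6

end Pool.Agent.H690R2.NS
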